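import Pool.Agent.H.MP_fa5791_lc.B

set_option autoImplicit false

/-! A tower of finite injury constructions of linear orders: the machine. -/

namespace Pool.Agent.H.MP_e58cbf_lc

open Pool.Agent.Lib.helper21.PR Pool.Agent.H.MP_fa5791_lc Pool.Agent.H.MP_fa2eca_lc Filter Set Encodable Denumerable
open Nat.Partrec Nat.Partrec.Code Pool.Agent.Lib.helper21

attribute [local irreducible] Primrec Computable

theorem base : ∃ (b : ℕ → ℕ → Bool) (q : ℕ ≃ ℚ), Primrec (fun z : ℕ × ℕ => b z.1 z.2) ∧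
    ∀ x y, b x y ↔ q x < q y := by
  let d : ℕ → ℚ := fun n => ((2 * n.unpair.2 + 1 : ℕ) : ℚ) / (2 ^ n.unpair.1 : ℕ)
  have lt : ∀ x y, d x < d y ↔ (2 * x.unpair.2 + 1) * 2 ^ y.unpair.1 < (2 * y.unpair.2 + 1) * 2 ^ x.unpair.1 :=
    fun x y => by rw [div_lt_div_iff₀ (by positivity) (by positivity)]; norm_cast
  have inj : d.Injective := fun x y h => by
    have e : (2 * x.unpair.2 + 1) * 2 ^ y.unpair.1 = (2 * y.unpair.2 + 1) * 2 ^ x.unpair.1 :=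
      (not_lt.1 (mt (lt y x).2 h.le.not_gt)).antisymm (not_lt.1 (mt (lt x y).2 h.ge.not_gt))
    have : ∀ {a b k l : ℕ}, (2 * a + 1) * 2 ^ k = (2 * b + 1) * 2 ^ l → ¬ l < k := fun {a b k l} e h => by
      obtain ⟨j, rfl⟩ := Nat.exists_eq_add_of_lt h
      rw [pow_succ, pow_add, mul_comm (2 ^ l), mul_right_comm (2 ^ j), ← mul_assoc, mul_left_inj' (by positivity),
        ← mul_assoc] at e
      omega
    have k := (not_lt.1 (this e)).antisymm (not_lt.1 (this e.symm))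
    rw [k, mul_left_inj' (by positivity)] at e
    exact Nat.pair_unpair x ▸ Nat.pair_unpair y ▸ by rw [k, show x.unpair.2 = y.unpair.2 by omega]
  have : DenselyOrdered (range d) := ⟨by
    rintro ⟨_, x, rfl⟩ ⟨_, y, rfl⟩ h
    replace h := (lt x y).1 h
    refine ⟨⟨_, Nat.pair (x.unpair.1 + y.unpair.1 + 1) ((2 * x.unpair.2 + 1) * 2 ^ y.unpair.1), rfl⟩, (lt _ _).2 ?_,
      (lt _ _).2 ?_⟩ <;> simp only [Nat.unpair_pair, pow_succ, pow_add] <;>
        nlinarith [Nat.two_pow_pos x.unpair.1, Nat.two_pow_pos y.unpair.1]⟩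
  have : NoMinOrder (range d) := ⟨by
    rintro ⟨_, x, rfl⟩
    refine ⟨⟨_, Nat.pair (x.unpair.1 + 1) 0, rfl⟩, (lt _ _).2 ?_⟩
    simp only [Nat.unpair_pair, pow_succ]
    nlinarith [Nat.two_pow_pos x.unpair.1]⟩
  have : NoMaxOrder (range d) := ⟨by
    rintro ⟨_, x, rfl⟩
    refine ⟨⟨_, Nat.pair x.unpair.1 (x.unpair.2 + 1), rfl⟩, (lt _ _).2 ?_⟩
    simp only [Nat.unpair_pair]
    nlinarith [Nat.two_pow_pos x.unpair.1]⟩
  obtain ⟨e⟩ := Order.iso_of_countable_dense (range d) ℚ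
  exact ⟨fun x y => decide ((2 * x.unpair.2 + 1) * 2 ^ y.unpair.1 < (2 * y.unpair.2 + 1) * 2 ^ x.unpair.1),
    (Equiv.ofInjective d inj).trans e.toEquiv, by fun_prop, fun x y => by simp [← lt, ← Subtype.coe_lt_coe]⟩

theorem zeta {α : Type} {r : α → α → Prop} (h1 : ∀ a, ¬ r a a) (h2 : ∀ a b c, r a b → r b c → r a c)
    (h3 : ∀ a b, ¬ r a b → ¬ r b a → a = b) (x : α) (up : ∀ a, ∃ b, r a b) (dn : ∀ a, ∃ b, r b a)
    (fi : ∀ a b, {c | r a c ∧ r c b}.Finite) : ∃ c : α → ℤ, c.Surjective ∧ c x = 0 ∧ ∀ a b, r a b ↔ c a < c b := by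
  classical
  have : IsStrictTotalOrder α r := { irrefl := h1, trans := h2, trichotomous := h3 }
  let := linearOrderOfSTO r
  have : NoMaxOrder α := ⟨up⟩
  have : NoMinOrder α := ⟨dn⟩
  have : Nonempty α := ⟨x⟩
  let := LocallyFiniteOrder.ofFiniteIcc fun a b : α => ((fi a b).insert a |>.insert b).subset fun c h =>
    h.2.eq_or_lt.imp_right fun k => h.1.eq_or_lt.imp Eq.symm (⟨·, k⟩)
  let := LinearLocallyFiniteOrder.succOrder α
  let := LinearLocallyFiniteOrder.predOrder α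
  let e : α ≃o ℤ := orderIsoIntOfLinearSuccPredArch
  exact ⟨fun a => e a - e x, fun k => ⟨e.symm (k + e x), by simp⟩, sub_self _, fun a b => by
    rw [sub_lt_sub_iff_right, e.lt_iff_lt]; rfl⟩

noncomputable def jx (σ : List Bool) (s : ℕ) : List Bool := (List.range s).map fun p => cd (∃ t < s + 1,
  (evaln s (ofNat Code p.unpair.1) (encode (p.unpair.2, σ.take t))).isSome)

/-- approximation to the jump -/
noncomputable def Ap (Y : ℕ → Bool) (s p : ℕ) : Bool := (jx (pre Y (s + 1)) s).getD p false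

theorem Ap_iff {Y : ℕ → Bool} {s p : ℕ} : Ap Y s p ↔ p < s ∧ ∃ t < s + 1,
    (evaln s (ofNat Code p.unpair.1) (encode (p.unpair.2, pre Y t))).isSome := by
  by_cases h : p < s
  · simp only [Ap, jx, List.getD_eq_getElem?_getD, List.getElem?_map, List.getElem?_range h, Option.map_some,
      Option.getD_some, cd_true, h, true_and]
    exact exists_congr fun t => and_congr_right fun k => by rw [pre_take _ k.le]
  · simp [Ap, jx, h]

theorem Ap_mono {Y : ℕ → Bool} {s t p : ℕ} (h : s ≤ t) (k : Ap Y s p) : Ap Y t p :=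
  let ⟨a, u, b, c⟩ := Ap_iff.1 k
  Ap_iff.2 ⟨a.trans_le h, u, by omega, (Option.isSome_iff_exists.1 c).elim fun _ c =>
    Option.isSome_iff_exists.2 ⟨_, evaln_mono h c⟩⟩

theorem Ap_lim (Y : ℕ → Bool) (p : ℕ) : ∀ᶠ s in atTop, Ap Y s p = J Y p := by
  cases e : J Y p
  · refine .of_forall fun s => Bool.eq_false_iff.2 fun h => Bool.eq_false_iff.1 e ?_
    obtain ⟨-, t, -, c⟩ := Ap_iff.1 h
    exact J_iff.2 ⟨t, Part.dom_iff_mem.2 ((Option.isSome_iff_exists.1 c).imp fun _ => evaln_sound)⟩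
  · obtain ⟨t, h⟩ := J_iff.1 e
    obtain ⟨u, h⟩ := evaln_complete.1 (Part.get_mem h)
    exact (eventually_gt_atTop (p + t + u)).mono fun s k => Ap_iff.2 ⟨by omega, t, by omega,
      Option.isSome_iff_exists.2 ⟨_, evaln_mono (by omega) h⟩⟩

abbrev St := List (List Bool) × List ℕ × ℕ × ℕ
abbrev Z := ℕ × (ℕ × List Bool) × List St

/-- `k` and `v` are neighbours -/
def Adj (T : ℕ → ℕ → Bool) (k v : ℕ) : Prop := v < k ∧ ∀ i < k, i ≠ v → T i k = T i v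

open Classical in
def Push (T T' : ℕ → ℕ → Bool) (W : ℕ → Bool) (π : ℕ → ℕ) (n m K : ℕ) : Prop :=
  (∀ a < K, ∀ b < K, T' a b = T a b) ∧ ¬ ∃ e < K, n + 1 + e < K ∧ n + 1 + e < ((Finset.range m).filter fun y =>
    W (Nat.pair e y)).card ∧ ∀ y < m, ∀ z < m, y ≠ z → W (Nat.pair e y) → W (Nat.pair e z) → π y ≠ π z

def la (s K : ℕ) : ℕ := if s.unpair.1.unpair.1 < K then s.unpair.1.unpair.1 else 0

theorem run {b : ℕ → ℕ → Bool} (hb : Primrec fun z : ℕ × ℕ => b z.1 z.2) (h0 : ∀ a, b a a = false)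
    (h1 : ∀ a c, a ≠ c → b a c = !b c a) :
    ∃ (L : ℕ → (ℕ → Bool) → ℕ → ℕ → Bool) (π : ℕ → (ℕ → Bool) → ℕ → ℕ → ℕ) (K u v : ℕ → (ℕ → Bool) → ℕ → ℕ),
      (∀ n Y Y' a c, (∀ i < max a c, Y i = Y' i) → L n Y a c = L n Y' a c) ∧ ∀ n Y,
      CI Y (fun z : ℕ × ℕ => L n Y z.1 z.2) ∧ CI Y (fun z : ℕ × ℕ => π n Y z.1 z.2) ∧
      (∀ a ≤ n, ∀ c ≤ n, L n Y a c = b a c) ∧ (∀ a, L n Y a a = false) ∧ (∀ a c, a ≠ c → L n Y a c = !L n Y c a) ∧
      (∀ y ≤ n, π n Y 0 y = y) ∧ K n Y 0 = n + 1 ∧ ∀ s,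
        ((∃ w, Adj (L (n + 1) (Ap Y (u n Y s))) (K n Y s - 1) w) →
          Adj (L (n + 1) (Ap Y (u n Y s))) (K n Y s - 1) (v n Y s)) ∧
        (Push (L (n + 1) (Ap Y (u n Y s))) (L (n + 1) (Ap Y s)) (Ap Y s) (π n Y s) n (n + 1 + s) (K n Y s) →
          K n Y (s + 1) = K n Y s + 1 ∧ u n Y (s + 1) = s ∧ ∀ y < n + 1 + s, π n Y (s + 1) y = π n Y s y) ∧
        (¬ Push (L (n + 1) (Ap Y (u n Y s))) (L (n + 1) (Ap Y s)) (Ap Y s) (π n Y s) n (n + 1 + s) (K n Y s) →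
          K n Y (s + 1) = K n Y s - 1 ∧ u n Y (s + 1) = u n Y s ∧ ∀ y < n + 1 + s,
            π n Y (s + 1) y = if π n Y s y = K n Y s - 1 then v n Y s else π n Y s y) ∧
        π n Y (s + 1) (n + 1 + s) = la s (K n Y (s + 1)) ∧ ∀ y < n + 1 + s, (L n Y y (n + 1 + s) ↔
          L (n + 1) (Ap Y (u n Y (s + 1))) (π n Y (s + 1) y) (la s (K n Y (s + 1))) ∨
            π n Y (s + 1) y = la s (K n Y (s + 1)) ∧ s.unpair.1.unpair.2 = 0) := by
  classical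
  obtain ⟨lt, l1, l2⟩ : ∃ lt : List (List Bool) → ℕ → ℕ → Bool, Primrec (fun z : List (List Bool) × ℕ × ℕ =>
    lt z.1 z.2.1 z.2.2) ∧ ∀ C a c, lt C a c = if a < c then (C.getD c []).getD a false else
      if c < a then !(C.getD a []).getD c false else false := ⟨_, by fun_prop, fun _ _ _ => rfl⟩
  have j1 : Primrec fun z : List Bool × ℕ => jx z.1 z.2 := by unfold jx; fun_prop
  have j2 : Primrec fun z : ℕ × ℕ => la z.1 z.2 := by unfold la; fun_prop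
  obtain ⟨nb, n1, n2⟩ := RI.choice (Y := O) (R := fun (z : List (List Bool) × ℕ) w => w ≤ z.2 ∧
    (Adj (lt z.1) z.2 w ∨ ¬ ∃ w < z.2, Adj (lt z.1) z.2 w)) (by unfold Adj; fun_prop) fun z => by
      by_cases h : ∃ w < z.2, Adj (lt z.1) z.2 w
      exacts [h.imp fun w h => ⟨h.1.le, .inl h.2⟩, ⟨0, Nat.zero_le _, .inr h⟩]
  obtain ⟨up, u1, u2⟩ : ∃ up : Z → ℕ → St, Primrec (fun w : Z × ℕ => up w.1 w.2) ∧ ∀ z i, up z i =
    z.2.2.getD i ([], [], 0, 0) := ⟨_, by fun_prop, fun _ _ => rfl⟩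
  obtain ⟨W, w1, w2⟩ : ∃ W : Z → ℕ → Bool, Primrec (fun w : Z × ℕ => W w.1 w.2) ∧ ∀ z i, W z i =
    (jx z.2.1.2 z.1).getD i false := ⟨_, by fun_prop, fun _ _ => rfl⟩
  obtain ⟨pu, p1, p2⟩ : ∃ pu : Z → Bool, Primrec pu ∧ ∀ z, pu z ↔ Push (lt (up z ((up z 0).2.2.2 + 1)).1)
      (lt (up z (z.1 + 1)).1) (W z) ((up z 0).2.1.getD · 0) z.2.1.1 (z.2.1.1 + 1 + z.1) (up z 0).2.2.1 :=
    ⟨fun _ => cd _, by unfold Push; fun_prop, fun _ => cd_true⟩
  obtain ⟨K', k1, k2⟩ : ∃ K' : Z → ℕ × ℕ, Primrec K' ∧ ∀ z, K' z = if pu z then ((up z 0).2.2.1 + 1, z.1) else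
    ((up z 0).2.2.1 - 1, (up z 0).2.2.2) := ⟨_, by fun_prop, fun _ => rfl⟩
  obtain ⟨P', q1, q2⟩ : ∃ P' : Z → ℕ → ℕ, CI O (fun w : Z × ℕ => P' w.1 w.2) ∧ ∀ z y, P' z y =
    if pu z = false ∧ (up z 0).2.1.getD y 0 = (up z 0).2.2.1 - 1 then nb ((up z ((up z 0).2.2.2 + 1)).1,
      (up z 0).2.2.1 - 1) else (up z 0).2.1.getD y 0 := ⟨_, by fun_prop, fun _ _ => rfl⟩
  obtain ⟨ap, a1, a2⟩ : ∃ ap : St → List Bool → List ℕ → ℕ → ℕ × ℕ → St, Primrec (fun w : St × List Bool × List ℕ ×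
    ℕ × ℕ × ℕ => ap w.1 w.2.1 w.2.2.1 w.2.2.2.1 w.2.2.2.2) ∧ ∀ a c l i k, ap a c l i k =
      (a.1 ++ [c], l ++ [i], k) := ⟨_, by fun_prop, fun _ _ _ _ _ => rfl⟩
  obtain ⟨h, g1, g2⟩ : ∃ h : Z → St, CI O h ∧ ∀ z, h z = ap (up z 0) ((List.range (z.2.1.1 + 1 + z.1)).map fun y =>
    cd (lt (up z ((K' z).2 + 1)).1 (P' z y) (la z.1 (K' z).1) ∨ P' z y = la z.1 (K' z).1 ∧
      z.1.unpair.1.unpair.2 = 0)) ((List.range (z.2.1.1 + 1 + z.1)).map (P' z)) (la z.1 (K' z).1) (K' z) :=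
    ⟨_, by fun_prop, fun _ => rfl⟩
  obtain ⟨dep, d1, d2⟩ : ∃ dep : ℕ → ℕ × List Bool → List (ℕ × List Bool), Primrec (fun w : ℕ × ℕ × List Bool =>
    dep w.1 w.2) ∧ ∀ t x, dep t x = (x.1, x.2.take t) :: (List.range (t + 1)).map fun u => (x.1 + 1,
      pre ((jx (x.2.take (u + 1)) u).getD · false) t) := ⟨_, by unfold pre; fun_prop, fun _ _ => rfl⟩
  obtain ⟨g, i1, i2⟩ : ∃ g : ℕ × List Bool → St, Primrec g ∧ ∀ x, g x = ((List.range (x.1 + 1)).map fun c =>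
    (List.range c).map (b · c), List.range (x.1 + 1), x.1 + 1, 0) := ⟨_, by fun_prop, fun _ => rfl⟩
  obtain ⟨F, f0, f1⟩ : ∃ F : ℕ → ℕ × List Bool → St, (∀ x, F 0 x = g x) ∧ ∀ t x, F (t + 1) x =
    h (t, x, (dep t x).map (F t)) := ⟨fun t => Nat.rec g (fun t F x => h (t, x, (dep t x).map F)) t,
      fun _ => rfl, fun _ _ => rfl⟩
  have f2 := ci_tree (h := fun t x l => h (t, x, l)) (ci_prim i1) g1 (ci_prim d1) f0 f1
  obtain ⟨G, e0⟩ : ∃ G : ℕ → ℕ → (ℕ → Bool) → St, ∀ s n Y, G s n Y = F s (n, pre Y s) := ⟨_, fun _ _ _ => rfl⟩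
  obtain ⟨z, e1⟩ : ∃ z : ℕ → ℕ → (ℕ → Bool) → Z, ∀ s n Y, z s n Y = (s, (n, pre Y (s + 1)),
    (dep s (n, pre Y (s + 1))).map (F s)) := ⟨_, fun _ _ _ => rfl⟩
  have e2 : ∀ s n Y, G (s + 1) n Y = h (z s n Y) := fun s n Y => by rw [e0, f1, e1]
  have e3 : ∀ s n Y, up (z s n Y) 0 = G s n Y := fun s n Y => by simp [u2, e1, d2, e0, pre_take]
  have e4 : ∀ s n Y, ∀ i ≤ s, up (z s n Y) (i + 1) = G s (n + 1) (Ap Y i) := fun s n Y i k => by
    simp [u2, e1, d2, e0, Nat.lt_succ_of_le k, pre_take _ (Nat.succ_le_succ k)]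
    rfl
  have e5 : ∀ s n Y, (z s n Y).1 = s ∧ (z s n Y).2.1.1 = n ∧ W (z s n Y) = Ap Y s := fun s n Y =>
    ⟨by rw [e1], by rw [e1], funext fun i => by rw [w2, e1]; rfl⟩
  have c1 : ∀ s n Y, (G s n Y).1.length = n + 1 + s := fun s n Y => by
    induction s with
    | zero => simp [e0, f0, i2]
    | succ s ih => simp [e2, g2, a2, e3, ih, add_assoc]
  have c2 : ∀ n Y x s t, s ≤ t → x < n + 1 + s → (G t n Y).1.getD x [] = (G s n Y).1.getD x [] :=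
    fun n Y x s t k l => by
      induction k with
      | refl => rfl
      | step k ih => rw [e2, g2, a2, e3, List.getD_append _ _ _ _ (by rw [c1]; exact l.trans_le (by simpa)), ih]
  obtain ⟨L, c3⟩ : ∃ L : ℕ → (ℕ → Bool) → ℕ → ℕ → Bool, ∀ n Y a c, L n Y a c = lt (G (max a c) n Y).1 a c :=
    ⟨_, fun _ _ _ _ => rfl⟩
  have c4 : ∀ n Y s, ∀ a < n + 1 + s, ∀ c < n + 1 + s, lt (G s n Y).1 a c = L n Y a c := fun n Y s a k c l => by
    rw [c3, l2, l2, ← c2 n Y a s _ (le_max_left s (max a c)) k, ← c2 n Y c s _ (le_max_left s (max a c)) l,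
      c2 n Y a _ _ (le_max_right s (max a c)) (by omega), c2 n Y c _ _ (le_max_right s (max a c)) (by omega)]
  have c5 : ∀ s n Y, (∀ y < n + 1 + s, (G (s + 1) n Y).2.1.getD y 0 = P' (z s n Y) y) ∧
      (G (s + 1) n Y).2.1.getD (n + 1 + s) 0 = la s (K' (z s n Y)).1 ∧ (G (s + 1) n Y).2.2 = K' (z s n Y) :=
    fun s n Y => by
      simp only [e2, g2, a2, e5]
      exact ⟨fun y k => by rw [List.getD_append _ _ _ _ (by simpa)]; simp [k], by simp⟩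
  have c6 : ∀ s n Y, (G s n Y).2.2.1 ≤ n + 1 + s ∧ (G s n Y).2.2.2 ≤ s ∧ ∀ y < n + 1 + s,
      (G s n Y).2.1.getD y 0 ≤ n + 1 + s := fun s n Y => by
    induction s with
    | zero => simp +contextual [e0, f0, i2, le_of_lt]
    | succ s ih =>
      have a : (K' (z s n Y)).1 ≤ n + 1 + s + 1 ∧ (K' (z s n Y)).2 ≤ s := by
        rw [k2, e3, (e5 s n Y).1]
        split_ifs <;> dsimp only <;> omega
      refine ⟨(c5 s n Y).2.2 ▸ a.1, (c5 s n Y).2.2 ▸ a.2.trans s.le_succ, fun y k => ?_⟩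
      obtain k | rfl : y < n + 1 + s ∨ y = n + 1 + s := by omega
      · rw [(c5 s n Y).1 y k, q2, e3]
        have := ih.2.2 y k
        split_ifs
        · exact (n2 _).1.trans (by dsimp only; omega)
        · omega
      · rw [(c5 s n Y).2.1, la]
        split_ifs <;> omega
  refine ⟨L, fun n Y s y => (G s n Y).2.1.getD y 0, fun n Y s => (G s n Y).2.2.1, fun n Y s => (G s n Y).2.2.2,
    fun n Y s => nb ((G s (n + 1) (Ap Y (G s n Y).2.2.2)).1, (G s n Y).2.2.1 - 1), fun n Y Y' a c k => by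
      rw [c3, c3, e0, e0, ML.pre_congr k], fun n (Y : ℕ → Bool) => ?_⟩
  have := ci_self Y
  have : CI Y fun s => G s n Y := (ci_comp (g := fun s => (s, n, pre Y s)) (f2.trans ci_O) (by fun_prop)).of_eq
    fun s => (e0 _ _ _).symm
  refine ⟨.of_eq (by fun_prop) fun _ => (c3 _ _ _ _).symm, by fun_prop, fun a k c l => ?_, fun a => by simp [c3, l2],
    fun a c k => ?_, fun y k => by simp [e0, f0, i2, Nat.lt_succ_of_le k], by simp [e0, f0, i2], fun s => ?_⟩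
  · rw [← c4 n Y 0 a (by omega) c (by omega), l2]
    rcases lt_trichotomy a c with m | rfl | m
    · simp [e0, f0, i2, m, Nat.lt_succ_of_le l]
    · simp [h0]
    · simp [e0, f0, i2, m, m.not_gt, Nat.lt_succ_of_le k, h1 a c m.ne']
  · rw [c3, c3, max_comm, l2, l2]
    rcases k.lt_or_gt with m | m <;> simp [m, m.not_gt]
  obtain ⟨b1, b2, b3⟩ := c6 s n Y
  have r1 : ∀ i w, Adj (lt (G s (n + 1) (Ap Y i)).1) ((G s n Y).2.2.1 - 1) w ↔
      Adj (L (n + 1) (Ap Y i)) ((G s n Y).2.2.1 - 1) w := fun i w => and_congr_right fun k =>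
    forall₂_congr fun j l => by rw [c4 _ _ _ _ (by omega) _ (by omega), c4 _ _ _ _ (by omega) _ (by omega)]
  have r2 : pu (z s n Y) ↔ Push (L (n + 1) (Ap Y (G s n Y).2.2.2)) (L (n + 1) (Ap Y s)) (Ap Y s)
      ((G s n Y).2.1.getD · 0) n (n + 1 + s) (G s n Y).2.2.1 := by
    simp only [p2, e3, e5, e4 _ _ _ _ b2, e4 _ _ _ _ le_rfl]
    exact and_congr_left' (forall₄_congr fun a k c l => by
      rw [c4 _ _ _ _ (by omega) _ (by omega), c4 _ _ _ _ (by omega) _ (by omega)])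
  beta_reduce
  refine ⟨fun ⟨w, k⟩ => (r1 _ _).1 ((n2 (_, _)).2.resolve_right fun l => l ⟨w, k.1, (r1 _ _).2 k⟩), fun k => ?_,
    fun k => ?_, by rw [(c5 s n Y).2.1, (c5 s n Y).2.2], fun y k => ?_⟩
  · simp +contextual only [c5, k2, q2, r2.2 k, e3, e5, if_true, true_and, Bool.true_eq_false, false_and, if_false,
      implies_true]
  · simp +contextual only [c5, k2, q2, Bool.eq_false_iff.2 (mt r2.1 k), e3, e4 _ _ _ _ b2, Bool.false_eq_true,
      if_false, true_and, implies_true]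
  · obtain ⟨b4, -, b6⟩ := c6 (s + 1) n Y
    have b5 : (G (s + 1) n Y).2.2.2 ≤ s := by
      rw [(c5 s n Y).2.2, k2, e3, (e5 s n Y).1]
      split_ifs <;> dsimp only <;> omega
    have b7 : (G (s + 1) n Y).2.1.getD y 0 < n + 1 + 1 + s := by
      rw [(c5 s n Y).1 y k, q2, e3]
      have := b3 y k
      split_ifs
      · exact (n2 _).1.trans_lt (by dsimp only; omega)
      · omega
    rw [← c4 n Y (s + 1) y (by omega) _ (by omega), l2, if_pos k, ← c4 _ _ s _ b7 _ (by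
      unfold la; split_ifs <;> omega), ← e4 _ _ _ _ b5, (c5 s n Y).1 y k, (c5 s n Y).2.2, e2, g2, a2, e3,
        List.getD_append_right _ _ _ _ (c1 _ _ _).le]
    simp [c1, e5, k]

end Pool.Agent.H.MP_e58cbf_lc
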