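import Pool.Agent.H.MP_e58cbf_lc.A

set_option autoImplicit false

/-! A tower of finite injury constructions of linear orders: one level. -/

namespace Pool.Agent.H.MP_e58cbf_lc

open Pool.Agent.Lib.helper21.PR Pool.Agent.H.MP_fa5791_lc Pool.Agent.H.MP_fa2eca_lc Filter Set Encodable Denumerable
open Pool.Agent.Lib.helper21

attribute [local irreducible] Primrec Computable

theorem adj {T : ℕ → ℕ → Bool} {k : ℕ} (h1 : ∀ a c, a ≠ c → T a c = !T c a)
    (h2 : ∀ a ≤ k, ∀ c ≤ k, ∀ d ≤ k, T a c → T c d → T a d) (h : 0 < k) : ∃ v, Adj T k v := by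
  have : ∀ j < k, ∃ v ≤ j, ∀ i ≤ j, i ≠ v → T i k = T i v := fun j a => by
    induction j with
    | zero => exact ⟨0, le_rfl, by omega⟩
    | succ j ih =>
      obtain ⟨v, b, c⟩ := ih (by omega)
      by_cases e : T (j + 1) k = T (j + 1) v
      · exact ⟨v, by omega, fun i d f => d.eq_or_lt.elim (· ▸ e) fun d => c i (by omega) f⟩
      refine ⟨j + 1, le_rfl, fun i d f => ?_⟩
      have t1 := h2 i (by omega) (j + 1) a.le k le_rfl
      have t2 := h2 i (by omega) k le_rfl (j + 1) a.le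
      have t3 := h2 i (by omega) (j + 1) a.le v (by omega)
      have t4 := h2 i (by omega) v (by omega) (j + 1) a.le
      have t5 := h2 (j + 1) a.le v (by omega) k le_rfl
      have := c i (by omega)
      rw [h1 k _ a.ne'] at t2
      rw [h1 v _ (by omega)] at t4
      by_cases g : i = v
      · subst g
        rw [h1 i (j + 1) f] at t1 ⊢
        revert e t1 t5
        cases T (j + 1) k <;> cases T (j + 1) i <;> cases T i k <;> simp
      · revert e t1 t2 t3 t4
        rw [← this g]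
        cases T (j + 1) k <;> cases T (j + 1) v <;> cases T i k <;> cases T i (j + 1) <;> simp
  obtain ⟨v, a, b⟩ := this (k - 1) (by omega)
  exact ⟨v, by omega, fun i c => b i (by omega)⟩

theorem level : ∃ (q : ℕ ≃ ℚ) (L : ℕ → (ℕ → Bool) → ℕ → ℕ → Bool) (p : ℕ → (ℕ → Bool) → ℕ → ℕ)
    (c : ℕ → (ℕ → Bool) → ℕ → ℤ), ∀ n Y, CI Y (fun z : ℕ × ℕ => L n Y z.1 z.2) ∧ CI (J Y) (p n Y) ∧
      (∀ a ≤ n, ∀ d ≤ n, L n Y a d ↔ q a < q d) ∧ (∀ y, p n Y y ≤ y) ∧ (∀ y ≤ n, p n Y y = y ∧ c n Y y = 0) ∧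
      (∀ i k, ∃ y, p n Y y = i ∧ c n Y y = k) ∧ ((∀ a, L n Y a a = false) ∧ ∀ a d, a ≠ d →
        L n Y a d = !L n Y d a) ∧ (∀ y z, L n Y y z ↔
        L (n + 1) (J Y) (p n Y y) (p n Y z) ∨ p n Y y = p n Y z ∧ c n Y y < c n Y z) ∧
      ∀ W : ℕ → Prop, RI Y W → {y | W y}.Infinite → ∃ y z, y ≠ z ∧ W y ∧ W z ∧ p n Y y = p n Y z := by
  classical
  obtain ⟨b, q, b1, b2⟩ := base
  obtain ⟨L, π, K, u, v, hU, H⟩ := run b1 (fun a => by simp [← Bool.not_eq_true, b2]) fun a c h => by
    rw [Bool.eq_iff_iff, Bool.not_eq_true', ← Bool.not_eq_true, b2, b2, not_lt, (q.injective.ne h).le_iff_lt]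
  choose x1 x2 x3 x4 x5 x6 x7 x8 using H
  choose s1 s2 s3 s4 s5 using x8
  have as : ∀ {n Y a c}, L n Y a c → ¬ L n Y c a := fun {n Y a c} h k => by
    by_cases e : a = c
    · simp [e, x4] at h
    · simp [x5 n Y a c e, k] at h
  have tt : ∀ {n Y a c}, a ≠ c → ¬ L n Y a c → L n Y c a := fun {n Y a c} h k => by simpa [x5 n Y a c h] using k
  have upd : ∀ s n Y, (∀ Z, ∀ a < n + 1 + 1 + s, ∀ c < n + 1 + 1 + s, ∀ d < n + 1 + 1 + s, L (n + 1) Z a c →
      L (n + 1) Z c d → L (n + 1) Z a d) → n + 1 ≤ K n Y s → K n Y s ≤ n + 1 + s → (∀ y < n + 1 + s,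
        π n Y s y < K n Y s) → n + 1 ≤ K n Y (s + 1) ∧ K n Y (s + 1) ≤ K n Y s + 1 ∧ (∀ y < n + 1 + s,
          π n Y (s + 1) y < K n Y (s + 1) ∧ π n Y (s + 1) y ≤ π n Y s y) ∧ ∀ y < n + 1 + s, ∀ z < n + 1 + s,
            L (n + 1) (Ap Y (u n Y (s + 1))) (π n Y (s + 1) y) (π n Y (s + 1) z) →
              L (n + 1) (Ap Y (u n Y s)) (π n Y s y) (π n Y s z) := fun s n Y t k1 k2 k3 => by
    by_cases e : Push (L (n + 1) (Ap Y (u n Y s))) (L (n + 1) (Ap Y s)) (Ap Y s) (π n Y s) n (n + 1 + s) (K n Y s)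
    · obtain ⟨a1, a2, a3⟩ := s2 n Y s e
      exact ⟨by omega, a1.le, fun y h => by have := k3 y h; rw [a3 y h]; omega, fun y h z k => by
        rw [a2, a3 y h, a3 z k, e.1 _ (k3 y h) _ (k3 z k)]; exact id⟩
    obtain ⟨a1, a2, a3⟩ := s3 n Y s e
    have a4 : n + 1 < K n Y s := k1.lt_of_ne fun f => e ⟨fun a h c k => by
      rw [x3 _ _ a (by omega) c (by omega), x3 _ _ a (by omega) c (by omega)], fun ⟨_, _, h, _⟩ => by omega⟩
    obtain ⟨a5, a6⟩ := s1 n Y s (adj (x5 _ _) (fun a h c k d l => t _ a (by omega) c (by omega) d (by omega))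
      (by omega))
    refine ⟨by omega, by omega, fun y h => by have := k3 y h; rw [a3 y h]; split_ifs <;> omega, fun y h z k => ?_⟩
    have := k3 y h
    have := k3 z k
    rw [a2, a3 y h, a3 z k]
    split_ifs with f g g
    · simp [x4]
    · exact fun l => f ▸ tt g (by rw [a6 _ (by omega) (by rintro e; simp [e, x4] at l)]; exact as l)
    · exact fun l => by rwa [g, a6 _ (by omega) (by rintro e; simp [e, x4] at l)]
    · exact id
  have inv : ∀ s n Y, (∀ a < n + 1 + s, ∀ c < n + 1 + s, ∀ d < n + 1 + s, L n Y a c → L n Y c d → L n Y a d) ∧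
      n + 1 ≤ K n Y s ∧ K n Y s ≤ n + 1 + s ∧ (∀ y < n + 1 + s, π n Y s y < K n Y s) ∧ (∀ y < n + 1 + s,
        π n Y s y ≤ y) ∧ ∀ y < n + 1 + s, ∀ z < n + 1 + s, L (n + 1) (Ap Y (u n Y s)) (π n Y s y) (π n Y s z) →
          L n Y y z := fun s => by
    induction s with
    | zero =>
      refine fun n Y => ⟨fun a h c k d l => ?_, (x7 n Y).ge, (x7 n Y).le, fun y h => by
        rw [x6 _ _ y (by omega), x7]; omega, fun y h => (x6 _ _ y (by omega)).le, fun y h z k => ?_⟩
      · rw [x3 _ _ a (by omega) c (by omega), x3 _ _ c (by omega) d (by omega), x3 _ _ a (by omega) d (by omega),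
          b2, b2, b2]
        exact lt_trans
      · rw [x6 _ _ y (by omega), x6 _ _ z (by omega), x3 _ _ y (by omega) z (by omega), x3 _ _ y (by omega) z (by omega)]
        exact id
    | succ s ih =>
      intro n Y
      obtain ⟨i1, i2, i3, i4, i5, i6⟩ := ih n Y
      obtain ⟨a1, a2, a3, a4⟩ := upd s n Y (fun Z => (ih _ Z).1) i2 i3 i4
      have l : la s (K n Y (s + 1)) < K n Y (s + 1) := by unfold la; split_ifs <;> omega
      have D : ∀ y < n + 1 + s, ∀ z < n + 1 + s, L n Y y z → L n Y z (n + 1 + s) → L n Y y (n + 1 + s) :=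
        fun y h z k e => by
          rw [s5 _ _ _ y h, s5 _ _ _ z k]
          by_cases f : π n Y (s + 1) z = π n Y (s + 1) y
          · rw [f]; exact id
          have g := tt f fun g => as e (i6 z k y h (a4 z k y h g))
          have := a3 y h
          have := a3 z k
          exact fun m => .inl (m.elim ((ih _ _).1 _ (by omega) _ (by omega) _ (by omega) g) (·.1 ▸ g))
      have cs : ∀ {y}, y < n + 1 + (s + 1) → y < n + 1 + s ∨ y = n + 1 + s := by omega
      refine ⟨fun a h c k d l e f => ?_, a1, by omega, fun y h => ?_, fun y h => ?_, fun y h z k => ?_⟩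
      · have := as e
        have := as f
        rcases cs h with h | rfl <;> rcases cs k with k | rfl <;> rcases cs l with l | rfl
        exacts [i1 a h c k d l e f, D a h c k e f, by_contra fun g => as f (D d l a h (tt (by rintro rfl; tauto) g) e),
          by simp [x4] at f, tt l.ne fun g => as e (D c k d l f g), (as e f).elim, f, e]
      · rcases cs h with h | rfl
        exacts [(a3 y h).1, s4 n Y s ▸ l]
      · rcases cs h with h | rfl
        exacts [(a3 y h).2.trans (i5 y h), by rw [s4]; omega]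
      · rcases cs h with h | rfl <;> rcases cs k with k | rfl
        · exact fun e => i6 y h z k (a4 y h z k e)
        · exact fun e => (s5 _ _ _ y h).2 (.inl (s4 n Y s ▸ e))
        · refine fun e => tt k.ne fun f => ?_
          rw [s4] at e
          exact ((s5 _ _ _ z k).1 f).elim (as e) fun g => by simp [g.1, x4] at e
        · simp [x4]
  suffices ∀ n Y, ∃ (p : ℕ → ℕ) (c : ℕ → ℤ), CI (J Y) p ∧ (∀ y, p y ≤ y) ∧ (∀ y ≤ n, p y = y ∧ c y = 0) ∧
      (∀ i k, ∃ y, p y = i ∧ c y = k) ∧ (∀ y z, L n Y y z ↔ L (n + 1) (J Y) (p y) (p z) ∨ p y = p z ∧ c y < c z) ∧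
        ∀ W : ℕ → Prop, RI Y W → {y | W y}.Infinite → ∃ y z, y ≠ z ∧ W y ∧ W z ∧ p y = p z by
    choose p c h1 h2 h3 h4 h5 h6 using this
    exact ⟨q, L, p, c, fun n Y => ⟨x1 n Y, h1 n Y, fun a h d k => by rw [x3 _ _ a h d k, b2], h2 n Y, h3 n Y, h4 n Y,
      ⟨x4 n Y, x5 n Y⟩, h5 n Y, h6 n Y⟩⟩
  intro n Y
  have U := fun s => upd s n Y (fun Z => (inv s _ Z).1) (inv s n Y).2.1 (inv s n Y).2.2.1 (inv s n Y).2.2.2.1
  obtain ⟨P, hP⟩ : ∃ P : ℕ → Prop, ∀ s, P s ↔ Push (L (n + 1) (Ap Y (u n Y s))) (L (n + 1) (Ap Y s)) (Ap Y s)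
    (π n Y s) n (n + 1 + s) (K n Y s) := ⟨_, fun _ => .rfl⟩
  replace s2 := fun s h => s2 n Y s ((hP s).1 h)
  replace s3 := fun s h => s3 n Y s (mt (hP s).2 h)
  have same : ∀ s, ∀ y < n + 1 + s, ∀ z < n + 1 + s, π n Y s y = π n Y s z → ∀ t ≥ s, π n Y t y = π n Y t z :=
    fun s y h z k e t l => by
      induction l with
      | refl => exact e
      | @step t l ih =>
        have : s ≤ t := l
        by_cases a : P t
        · rw [(s2 t a).2.2 y (by omega), (s2 t a).2.2 z (by omega), ih]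
        · rw [(s3 t a).2.2 y (by omega), (s3 t a).2.2 z (by omega), ih]
  have keep : ∀ s, ∀ y < n + 1 + s, (∀ t ≥ s, π n Y s y < K n Y t) → ∀ t ≥ s, π n Y t y = π n Y s y :=
    fun s y h k t l => by
      induction l with
      | refl => rfl
      | @step t l ih =>
        have : s ≤ t := l
        have := k (t + 1) (by omega)
        by_cases a : P t
        · rw [(s2 t a).2.2 y (by omega), ih]
        · rw [(s3 t a).2.2 y (by omega), if_neg (by have := (s3 t a).1; omega), ih]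
  have fr : ∀ s, ∃ t ≥ s, P t := fun s => by_contra fun h => by
    have : ∀ k, K n Y (s + k) + k ≤ K n Y s := fun k => by
      induction k with
      | zero => rfl
      | succ k ih =>
        have := (s3 (s + k) fun a => h ⟨_, by omega, a⟩).1
        have := (inv (s + k) n Y).2.1
        rw [← add_assoc s]
        omega
    have := this (K n Y s + 1)
    omega
  have sat : ∀ e, (∀ s, ((Finset.range (n + 1 + s)).filter fun y => Ap Y s (Nat.pair e y)).card ≤ n + 1 + e) ∨
      ∃ s, ∃ y < n + 1 + s, ∃ z < n + 1 + s, y ≠ z ∧ Ap Y s (Nat.pair e y) ∧ Ap Y s (Nat.pair e z) ∧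
        π n Y s y = π n Y s z := fun e => or_iff_not_imp_right.2 fun h s => not_lt.1 fun k => by
    obtain ⟨t, a, c⟩ := fr s
    push Not at h
    replace k := k.trans_le (Finset.card_le_card (Finset.monotone_filter_left _ (Finset.range_mono
      (Nat.add_le_add_left a _)) |>.trans (Finset.monotone_filter_right _ fun _ _ => Ap_mono a)))
    have : n + 1 + e < K n Y t := k.trans_le ((Finset.card_le_card_of_injOn (π n Y t) (fun y d => Finset.mem_range.2
      ((inv t n Y).2.2.2.1 y (Finset.mem_range.1 (Finset.mem_filter.1 d).1))) fun y d z f g => by_contra fun l => by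
        simp only [Finset.coe_filter, Finset.mem_range, mem_setOf] at d f
        exact h t y d.1 z f.1 l d.2 f.2 g).trans_eq (Finset.card_range _))
    exact ((hP t).1 c).2 ⟨e, by omega, this, k, h t⟩
  have big : ∀ j, ∀ᶠ s in atTop, j ≤ K n Y s ∧ ∀ a < j, ∀ c < j, L (n + 1) (Ap Y (u n Y s)) a c =
      L (n + 1) (J Y) a c := fun j => by
    have lim : ∀ j, ∃ s, ∀ t ≥ s, ∀ a < j, ∀ c < j, L (n + 1) (Ap Y t) a c = L (n + 1) (J Y) a c := fun j =>
      eventually_atTop.1 (((eventually_all_finite (finite_lt_nat j)).2 fun i _ => Ap_lim Y i).mono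
        fun t h a k c l => hU _ _ _ _ _ fun i m => h i (m.trans (max_lt k l)))
    have um : ∀ s, ∀ᶠ t in atTop, s ≤ u n Y t := fun s => by
      obtain ⟨t, a, c⟩ := fr s
      refine eventually_atTop.2 ⟨t + 1, fun w h => ?_⟩
      induction h with
      | refl => exact a.le.trans (s2 t c).2.1.ge
      | @step w h ih =>
        by_cases e : P w
        exacts [(a.le.trans (Nat.le_of_succ_le h)).trans (s2 w e).2.1.ge, ih.trans (s3 w e).2.1.ge]
    refine Eventually.and ?_ ((lim j).elim fun s h => (um s).mono fun t => h _)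
    induction j with
    | zero => simp
    | succ j ih =>
      obtain ⟨r, h⟩ := lim (j + 1)
      obtain ⟨s, k⟩ := eventually_atTop.1 ((ih.and ((um r).and (eventually_ge_atTop r))).and
        ((eventually_all_finite (finite_lt_nat (j + 1))).2 fun e _ => show ∀ᶠ s in atTop, ¬ (n + 1 + e <
          ((Finset.range (n + 1 + s)).filter fun y => Ap Y s (Nat.pair e y)).card ∧ ∀ y < n + 1 + s, ∀ z < n + 1 + s,
            y ≠ z → Ap Y s (Nat.pair e y) → Ap Y s (Nat.pair e z) → π n Y s y ≠ π n Y s z) from by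
        rcases sat e with a | ⟨s, y, a, z, c, d, f, g, l⟩
        · exact .of_forall fun s c => (a s).not_gt c.1
        · exact (eventually_ge_atTop s).mono fun t m o => o.2 y (by omega) z (by omega) d (Ap_mono m f)
            (Ap_mono m g) (same s y a z c l t m)))
      obtain ⟨t, a, c⟩ := fr s
      refine eventually_atTop.2 ⟨t + 1, fun w d => ?_⟩
      induction d with
      | refl => exact (s2 t c).1 ▸ Nat.succ_le_succ (k t a).1.1
      | @step w d ih =>
        have f := k w (a.trans (Nat.le_of_succ_le d))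
        by_cases e : P w
        · exact (s2 w e).1 ▸ Nat.le_succ_of_le ih
        · have := ih.lt_of_ne fun g => e ((hP w).2 ⟨fun x l y m => by
            rw [h w f.1.2.2 x (g ▸ l) y (g ▸ m), h _ f.1.2.1 x (g ▸ l) y (g ▸ m)],
              fun ⟨x, l, _, m⟩ => f.2 x (g ▸ l :) m⟩)
          exact le_of_le_of_eq (by omega) (s3 w e).1.symm
  have anti : ∀ y s t, y ≤ s → s ≤ t → π n Y t y ≤ π n Y s y := fun y s t h k => by
    induction k with
    | refl => rfl
    | @step t k ih => exact ((U t).2.2.1 y (by have : s ≤ t := k; omega)).2.trans ih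
  obtain ⟨p, hp⟩ : ∃ p : ℕ → ℕ, ∀ y, ∀ᶠ s in atTop, π n Y s y = p y := by
    refine (Classical.skolem (p := fun y w => ∀ᶠ s in atTop, π n Y s y = w)).1 fun y => ?_
    obtain ⟨s, h⟩ := eventually_atTop.1 ((big (y + 1)).and (eventually_ge_atTop y))
    exact ⟨_, eventually_atTop.2 ⟨s, keep s y (by have := (h s le_rfl).2; omega) fun t k =>
      ((inv s n Y).2.2.2.2.1 y (by have := (h s le_rfl).2; omega)).trans_lt (h t k).1.1⟩⟩
  have p1 : ∀ s y, (∀ t ≥ s, π n Y t y = π n Y s y) → p y = π n Y s y := fun s y h =>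
    ((eventually_ge_atTop s).and (hp y)).exists.elim fun t k => k.2 ▸ h t k.1
  have p2 : ∀ y s, y ≤ s → p y ≤ π n Y s y := fun y s h =>
    ((eventually_ge_atTop s).and (hp y)).exists.elim fun t k => k.2 ▸ anti y s t h k.1
  have p3 : ∀ y z, L (n + 1) (J Y) (p y) (p z) → L n Y y z := fun y z h => by
    obtain ⟨s, ⟨a, c⟩, d, e⟩ := (((hp y).and (hp z)).and ((big (p y + p z + 1)).and
      (eventually_ge_atTop (y + z)))).exists
    exact (inv s n Y).2.2.2.2.2 y (by omega) z (by omega) (by rwa [a, c, d.2 _ (by omega) _ (by omega)])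
  have p4 : ∀ i d y, ∃ z > y, p z = i ∧ (p y = i → (L n Y y z ↔ d = 0)) := fun i d y => by
    obtain ⟨r, h⟩ := eventually_atTop.1 ((big (i + 1)).and ((hp y).and (eventually_ge_atTop y)))
    obtain ⟨s, a, c, e⟩ : ∃ s ≥ r, s.unpair.1.unpair.1 = i ∧ s.unpair.1.unpair.2 = d :=
      ⟨Nat.pair (Nat.pair i d) r, Nat.right_le_pair _ _, by simp⟩
    have l : la s (K n Y (s + 1)) = i := by rw [la, c, if_pos (Nat.lt_of_succ_le (h _ (by omega)).1.1)]
    have := (h s a).2.2
    refine ⟨n + 1 + s, by omega, (p1 (s + 1) _ (keep _ _ (by omega) fun t k => by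
      rw [s4, l]; exact (h t (by omega)).1.1)).trans ((s4 _ _ _).trans l), fun k => ?_⟩
    simp [s5 n Y s y (by omega), l, (h (s + 1) (by omega)).2.1, k, x4, e]
  have : ∀ i, ∃ c : {y // p y = i} → ℤ, c.Surjective ∧ (∀ h : p i = i, c ⟨i, h⟩ = 0) ∧
      ∀ a d, L n Y a.1 d.1 ↔ c a < c d := fun i => by
    obtain ⟨x, hx⟩ : ∃ x : {y // p y = i}, ∀ h : p i = i, ⟨i, h⟩ = x := by
      by_cases h : p i = i
      exacts [⟨⟨i, h⟩, fun _ => rfl⟩, (p4 i 0 0).elim fun z k => ⟨⟨z, k.2.1⟩, fun a => (h a).elim⟩]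
    refine (zeta (r := fun a d : {y // p y = i} => L n Y a.1 d.1) (fun a => by simp [x4]) (fun a c d =>
      (inv (a.1 + c.1 + d.1) n Y).1 _ (by omega) _ (by omega) _ (by omega)) (fun a c h k => Subtype.ext (by_contra
        fun e => k (tt e h))) x (fun a => (p4 i 0 a).elim fun z k => ⟨⟨z, k.2.1⟩, (k.2.2 a.2).2 rfl⟩) (fun a =>
          (p4 i 1 a).elim fun z k => ⟨⟨z, k.2.1⟩, tt k.1.ne (by simp [k.2.2 a.2])⟩) fun a d => ?_).imp
            fun c h => ⟨h.1, fun k => hx k ▸ h.2.1, h.2.2⟩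
    obtain ⟨s, h⟩ := eventually_atTop.1 (((hp a).and (hp d)).and (eventually_ge_atTop (a.1 + d.1)))
    refine ((finite_lt_nat (n + 1 + s)).preimage Subtype.val_injective.injOn).subset fun w k => show w.1 < _ from not_le.1 fun l => ?_
    obtain ⟨t, e⟩ := Nat.exists_eq_add_of_le l
    have := (h s le_rfl).2
    have f := (h (s + t + 1) (by omega)).1
    refine as k.2 ?_
    have g := k.1
    rw [e, add_assoc, s5 _ _ _ _ (by omega)] at g ⊢
    rwa [f.2, d.2, ← a.2, ← f.1]
  choose c c1 c2 c3 using this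
  have p5 : ∀ y ≤ n, p y = y := fun y h => (p1 0 y (keep 0 y (by omega) fun t _ => by
    have := (inv t n Y).2.1; rw [x6 _ _ y h]; omega)).trans (x6 _ _ y h)
  have e : ∀ y i (h : p y = i), c (p y) ⟨y, rfl⟩ = c i ⟨y, h⟩ := by rintro y _ rfl; rfl
  refine ⟨p, fun y => c (p y) ⟨y, rfl⟩, ?_, fun y => (p2 y y le_rfl).trans ((inv y n Y).2.2.2.2.1 y (by omega)),
    fun y h => ⟨p5 y h, (e y y (p5 y h)).trans (c2 _ _)⟩, fun i k => (c1 i k).elim fun y h =>
      ⟨y, y.2, (e y i y.2).trans h⟩, fun y z => ?_, fun W h k => ?_⟩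
  · have := x2 n Y
    obtain ⟨B, a1, a2⟩ : ∃ B : ℕ × ℕ → Bool, CI (J Y) B ∧ ∀ z, B z = cd (∃ s, z.1 ≤ s ∧ π n Y s z.1 < z.2) :=
      ⟨_, RI.jump (RI.un (by fun_prop)), fun _ => rfl⟩
    refine CI.mk (R := fun y w => B (y, w + 1) = true ∧ B (y, w) = false) (by fun_prop) fun y w => ?_
    obtain ⟨s, h, k⟩ := ((eventually_ge_atTop y).and (hp y)).exists
    simp only [a2, ← Bool.not_eq_true, cd_true, not_exists, not_and, not_lt]
    exact ⟨fun ⟨⟨t, a, d⟩, f⟩ => by have := p2 y t a; have := f s h; omega, fun a => ⟨⟨s, h, by omega⟩,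
      fun t d => a ▸ p2 y t d⟩⟩
  · by_cases h : p y = p z
    · simp only [e y _ h, ← c3, h, x4, true_and, Bool.false_eq_true, false_or]
    · exact ⟨fun k => .inl (tt (Ne.symm h) fun l => as k (p3 _ _ l)), fun k => p3 _ _ (k.resolve_right fun l => h l.1)⟩
  · obtain ⟨e, f⟩ := jump_one h
    simp only [encode_nat] at f
    rcases sat e with a | ⟨s, y, a, z, d, g, l, m, o⟩
    · obtain ⟨S, d, g⟩ := k.exists_subset_card_eq (n + 1 + e + 1)
      obtain ⟨s, l⟩ := ((eventually_all_finset S).2 fun y _ => (Ap_lim Y (Nat.pair e y)).and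
        (eventually_ge_atTop y)).exists
      have := (Finset.card_le_card fun y m => Finset.mem_filter.2 ⟨Finset.mem_range.2 (by
        have := (l y m).2; omega), (l y m).1 ▸ (f y).1 (d m)⟩).trans (a s)
      omega
    · have j : ∀ y, Ap Y s (Nat.pair e y) → W y := fun y h => ((Ap_lim Y (Nat.pair e y)).and
        (eventually_ge_atTop s)).exists.elim fun t k => (f y).2 (k.1 ▸ Ap_mono k.2 h)
      obtain ⟨t, r⟩ := (((hp y).and (hp z)).and (eventually_ge_atTop s)).exists
      exact ⟨y, z, g, j y l, j z m, r.1.1 ▸ r.1.2 ▸ same s y a z d o t r.2⟩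

end Pool.Agent.H.MP_e58cbf_lc
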